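import Pool.Agent.H58.FN.Targets

/-!
# Row AB3: the algebraic theorem with three families (after H59/FA/ABS)
-/

set_option autoImplicit false

namespace Pool.Agent.H64.FN

open Pool.Agent.H59 Pool.Agent.H48.FR Pool.Agent.H58.FL Pool.Agent.H30.FA Pool.Agent.H58.FM
open Pool.Agent.H58.FN

theorem ab3_ev_bd_zero (hCPL : T_CPL) (hEVB : T_EVB) (hEVL : T_EVL) (hLOW : T_LOW) {X : Type}
    {K : Set (Set X)} (hD : Down K) {g : X → X → X → ℝ} (hg : Cl2 K g) (n : ℕ)
    {b : LL (2 * n + 2) X} (hb : On K b) :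
    ev (2 * n) (H58.FL.PL (List.replicate n g)) (bdL (2 * n + 1) X b) = 0 := by
  have hdep : Dep (2 * n) (H58.FL.PL (List.replicate n g)) := by
    have h1 := (hLOW X).2.2.2.2.2.2.2.2.1 (List.replicate n g)
    rwa [List.length_replicate] at h1
  rw [hEVB X (2 * n) _ b hdep]
  have h2 := (hEVL X (2 * n + 1)).2.2.2.2.1 (dl (2 * n) (H58.FL.PL (List.replicate n g)))
    (fun _ => 0) b (by
      intro t ht
      have h3 := hCPL X K hD (List.replicate n g) (fun g' hg' => by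
        rw [List.eq_of_mem_replicate hg']; exact hg) (ex t) (by
        refine hD _ (hb t ht) _ ?_
        rintro y ⟨i, -, hi⟩
        rw [← hi]
        exact ⟨_, rfl⟩)
      rwa [List.length_replicate] at h3)
  rw [h2]
  unfold ev
  simp

theorem ab3_cl2_mono {X : Type} {K K' : Set (Set X)} (h : K' ⊆ K) {g : X → X → X → ℝ}
    (hg : Cl2 K g) : Cl2 K' g := fun S hS => hg S (h hS)

theorem ab3_cl2_mul {X : Type} {K : Set (Set X)} {g : X → X → X → ℝ} (r : ℝ)
    (hg : Cl2 K g) : Cl2 K (fun a b c => r * g a b c) := by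
  intro S hS p hp q hq s hs t ht
  have h1 := hg S hS p hp q hq s hs t ht
  unfold d2 at h1 ⊢
  linear_combination r * h1

theorem ab3_scal {X : Type} (r : ℝ) (u : X → X → X → ℝ) (n : ℕ) (x : ℕ → X) :
    H58.FL.PL (List.replicate n (fun a b c => r * u a b c)) x =
      r ^ n * H58.FL.PL (List.replicate n u) x := by
  induction n generalizing x with
  | zero => simp [H58.FL.PL]
  | succ n ih =>
    rw [List.replicate_succ, List.replicate_succ]
    simp only [H58.FL.PL, cup, c2]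
    rw [ih]
    ring

theorem ab3_ev_scal (hEVL : T_EVL) {X : Type} (k : ℕ) (r : ℝ) (β : Coc X) (c : LL (k + 1) X) :
    ev k (fun x => r * β x) c = r * ev k β c := by
  have h1 := (hEVL X k).2.2.1 (fun _ => 0) β r c
  have h2 : ev k (fun _ : ℕ → X => (0 : ℝ)) c = 0 := by unfold ev; simp
  rw [h2, zero_add] at h1
  rw [← h1]
  congr 1
  funext x
  ring

theorem pf_AB3 (hSPL : T_SPL) (hNIL : T_NIL) (hITW : T_ITW) (hBNX : T_BNX) (hCPL : T_CPL)
    (hEVB : T_EVB) (hEVL : T_EVL) (hLOW : T_LOW) : T_AB3 := by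
  intro X K₁ K₂ hD1 hD2 u c θ₁ θ₂ η hu1 hc2 hui hci hnil n hn b hb hbd
  have hD : Down (K₁ ∩ K₂) := fun S hS T hT => ⟨hD1 S hS.1 T hT, hD2 S hS.2 T hT⟩
  obtain ⟨b₁, b₂, hbb, hb1, hb2, hbe⟩ := hSPL X K₁ K₂ hD1 hD2 (2 * n) b hb hbd
  have hu : Cl2 (K₁ ∩ K₂) u := ab3_cl2_mono Set.inter_subset_left hu1
  have hz : bdL (2 * n) X (bdL (2 * n + 1) X b₂) = 0 := bdL_bdL (2 * n) b₂
  obtain ⟨z, hzdef⟩ : ∃ z, z = bdL (2 * n + 1) X b₂ := ⟨_, rfl⟩
  rw [← hzdef] at hz hbe
  -- the value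
  have hval : ev (2 * n) (H58.FL.PL (List.replicate n u)) (bdL (2 * n + 1) X b) =
      ev (2 * n) (H58.FL.PL (List.replicate n u)) z := by
    rw [hbb, map_add, (hEVL X (2 * n)).1, ab3_ev_bd_zero hCPL hEVB hEVL hLOW hD1 hu1 n hb1,
      zero_add, hzdef]
  obtain ⟨U, hU⟩ : ∃ U : X → X → X → ℝ, U = fun a b c => 64 * u a b c := ⟨_, rfl⟩
  obtain ⟨v, hv⟩ : ∃ v : X → X → X → ℝ, v = fun a b c' => 64 * c a b c' := ⟨_, rfl⟩
  have hv2 : Cl2 K₂ v := by rw [hv]; exact ab3_cl2_mul 64 hc2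
  have hv1 : Cl2 (K₁ ∩ K₂) v := ab3_cl2_mono Set.inter_subset_right hv2
  have hUc : Cl2 (K₁ ∩ K₂) U := by rw [hU]; exact ab3_cl2_mul 64 hu
  have hvz : ev (2 * n) (H58.FL.PL (List.replicate n v)) z = 0 := by
    rw [hzdef]; exact ab3_ev_bd_zero hCPL hEVB hEVL hLOW hD2 hv2 n hb2
  -- the difference
  obtain ⟨y, hy⟩ : ∃ y : X → X → X → ℝ, y = fun a b c => U a b c - v a b c := ⟨_, rfl⟩
  have hyc : Cl2 (K₁ ∩ K₂) y := by
    intro S hS p hp q hq r hr s hs
    have h1 := hUc S hS p hp q hq r hr s hs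
    have h2 := hv1 S hS p hp q hq r hr s hs
    rw [hy]
    unfold d2 at h1 h2 ⊢
    linarith
  have hvi : ∀ S ∈ K₁ ∩ K₂, ∀ p ∈ S, ∀ q ∈ S, ∀ r ∈ S, ∃ j : ℤ, v p q r - d1 θ₂ p q r = j := by
    intro S hS p hp q hq r hr
    rw [hv]
    exact hci S hS p hp q hq r hr
  have hyi : ∃ ϑ : X → X → ℝ, ∀ S ∈ K₁ ∩ K₂, ∀ p ∈ S, ∀ q ∈ S, ∀ r ∈ S,
      ∃ j : ℤ, y p q r - d1 ϑ p q r = j := by
    refine ⟨fun a b => 64 * θ₁ a b - θ₂ a b, fun S hS p hp q hq r hr => ?_⟩
    obtain ⟨j, hj⟩ := hui S hS p hp q hq r hr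
    obtain ⟨j', hj'⟩ := hci S hS p hp q hq r hr
    refine ⟨64 * j - j', ?_⟩
    rw [hy, hU, hv]
    unfold d1 at hj hj' ⊢
    push_cast
    linarith
  -- the integral values
  have hW : ∀ j, j ≤ n → ∃ N : ℤ,
      ev (2 * n) (H58.FL.PL (List.replicate j y ++ List.replicate (n - j) v)) z = N := by
    intro j hj
    refine hITW X (K₁ ∩ K₂) hD _ ?_ n ?_ z hbe hz
    · intro g hg
      rcases List.mem_append.1 hg with h | h
      · rw [List.eq_of_mem_replicate h]; exact ⟨hyc, hyi⟩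
      · rw [List.eq_of_mem_replicate h]; exact ⟨hv1, θ₂, hvi⟩
    · rw [List.length_append, List.length_replicate, List.length_replicate]; omega
  obtain ⟨B, hB⟩ : ∃ B : ℕ → ℤ, ∀ j, j ≤ n →
      ev (2 * n) (H58.FL.PL (List.replicate j y ++ List.replicate (n - j) v)) z = B j := by
    classical
    refine ⟨fun j => if h : j ≤ n then (hW j h).choose else 0, fun j hj => ?_⟩
    simp only [dif_pos hj]
    exact (hW j hj).choose_spec
  have hB00 : B 0 = 0 := by
    have h1 := hB 0 (Nat.zero_le n)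
    rw [List.replicate_zero, List.nil_append, Nat.sub_zero, hvz] at h1
    exact_mod_cast h1.symm
  have hB0 : ∀ j, 3 ≤ j → j ≤ n → B j = 0 := by
    intro j hmj hjn
    have h1 := hNIL X (K₁ ∩ K₂) hD U v 3 (fun i a b => 64 * η i a b) (fun _ => 1)
      (fun _ => one_ne_zero) hUc hv1 (by
        intro S hS hSn
        obtain ⟨i, hi⟩ := hnil S hS hSn
        refine ⟨i, fun p hp q hq r hr => ?_⟩
        have h2 := hi p hp q hq r hr
        rw [hU, hv]
        unfold d1 at h2 ⊢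
        push_cast
        linarith) n
      (List.replicate (j - 3) y ++ List.replicate (n - j) v) (by
        intro g hg
        rcases List.mem_append.1 hg with h | h
        · rw [List.eq_of_mem_replicate h]; exact hyc
        · rw [List.eq_of_mem_replicate h]; exact hv1)
      (by rw [List.length_append, List.length_replicate, List.length_replicate]; omega) z hbe hz
    rw [← hy, ← List.append_assoc, List.replicate_append_replicate,
      Nat.add_sub_cancel' hmj, hB j hjn] at h1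
    exact_mod_cast h1
  have hsum : ev (2 * n) (H58.FL.PL (List.replicate n U)) z =
      ∑ j ∈ Finset.range (n + 1), (n.choose j : ℝ) * (B j : ℝ) := by
    have h4 : (fun a b c => y a b c + 1 * v a b c) = U := by
      funext p q r
      rw [hy]; ring
    rw [← h4, hBNX X (K₁ ∩ K₂) hD y v 1 hyc hv1 n z hbe hz]
    refine Finset.sum_congr rfl fun j hj => ?_
    rw [hB j (Nat.lt_succ_iff.1 (Finset.mem_range.1 hj)), one_pow, mul_one]
  have hsum3 : ∑ j ∈ Finset.range (n + 1), (n.choose j : ℝ) * (B j : ℝ) =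
      n * (B 1 : ℝ) + n.choose 2 * (B 2 : ℝ) := by
    have h5 : ∑ j ∈ Finset.range (n + 1), (n.choose j : ℝ) * (B j : ℝ) =
        ∑ j ∈ Finset.range (n + 1 + 3), (n.choose j : ℝ) * (B j : ℝ) := by
      refine Finset.sum_subset (Finset.range_subset_range.2 (by omega)) (fun j _ hj => ?_)
      rw [Nat.choose_eq_zero_of_lt (by have := Finset.mem_range.not.1 hj; omega), Nat.cast_zero,
        zero_mul]
    have h6 : ∑ j ∈ Finset.range 3, (n.choose j : ℝ) * (B j : ℝ) =
        ∑ j ∈ Finset.range (n + 1 + 3), (n.choose j : ℝ) * (B j : ℝ) := by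
      refine Finset.sum_subset (Finset.range_subset_range.2 (by omega)) (fun j _ hj => ?_)
      have hj3 : 3 ≤ j := by have := Finset.mem_range.not.1 hj; omega
      rcases le_or_gt j n with h | h
      · rw [hB0 j hj3 h, Int.cast_zero, mul_zero]
      · rw [Nat.choose_eq_zero_of_lt h, Nat.cast_zero, zero_mul]
    rw [h5, ← h6, Finset.sum_range_succ, Finset.sum_range_succ, Finset.sum_range_succ,
      Finset.sum_range_zero, hB00, Nat.choose_one_right]
    simp
  refine ⟨B 1, B 2, ?_⟩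
  rw [hval, ← hsum3, ← hsum, hU]
  have h7 := (hEVL X (2 * n)).2.2.2.2.1
    (H58.FL.PL (List.replicate n (fun a b c => 64 * u a b c)))
    (fun x => 64 ^ n * H58.FL.PL (List.replicate n u) x) z (fun t _ => ab3_scal 64 u n (ex t))
  rw [h7, ab3_ev_scal hEVL]

end Pool.Agent.H64.FN
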