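import Pool.Agent.H58.FN.Targets

/-!
# Row CLP: labelling of all points
-/

set_option autoImplicit false

namespace Pool.Agent.H64.FN

open Pool.Agent.H59 Pool.Agent.H48.FR Pool.Agent.H58.FL Pool.Agent.H30.FA Pool.Agent.H58.FM
open Pool.Agent.H58.FN

lemma clp_alt3 (G : Fin 6 → Fin 6 → Fin 6 → ℤ)
    (hG : ∀ a b c, G b a c = -G a b c ∧ G a c b = -G a b c) (l : Fin 6)
    (g0 : ∀ i j k, i ≠ l → j ≠ l → k ≠ l → G i j k = 0)
    (g1 : ∀ j k, j ≠ l → k ≠ l → G l j k = 0) : ∀ i j k, G i j k = 0 := by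
  have a1 : ∀ k, G l l k = 0 := fun k => by have := (hG l l k).1; omega
  have a2 : ∀ j, G l j l = 0 := fun j => by
    have h1 := (hG l l j).2
    have h2 := a1 j
    omega
  have a3 : ∀ j k, G l j k = 0 := by
    intro j k
    by_cases hj : j = l
    · rw [hj]; exact a1 k
    · by_cases hk : k = l
      · rw [hk]; exact a2 j
      · exact g1 j k hj hk
  have a4 : ∀ i k, G i l k = 0 := fun i k => by
    have h1 := (hG l i k).1
    have h2 := a3 i k
    omega
  have a5 : ∀ i j, G i j l = 0 := fun i j => by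
    have h1 := (hG i l j).2
    have h2 := a4 i j
    omega
  intro i j k
  by_cases hi : i = l
  · rw [hi]; exact a3 j k
  · by_cases hj : j = l
    · rw [hj]; exact a4 i k
    · by_cases hk : k = l
      · rw [hk]; exact a5 i j
      · exact g0 i j k hi hj hk

lemma clp_alt4 (F : Fin 6 → Fin 6 → Fin 6 → Fin 6 → ℤ)
    (hF : ∀ a b c d, F b a c d = -F a b c d ∧ F a c b d = -F a b c d ∧ F a b d c = -F a b c d)
    (l : Fin 6) (h0 : ∀ i j k r, i ≠ l → j ≠ l → k ≠ l → r ≠ l → F i j k r = 0)
    (h1 : ∀ j k r, j ≠ l → k ≠ l → r ≠ l → F l j k r = 0) : ∀ i j k r, F i j k r = 0 := by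
  have b1 : ∀ k r, F l l k r = 0 := fun k r => by have := (hF l l k r).1; omega
  have a3 : ∀ j k r, F l j k r = 0 := by
    refine clp_alt3 (F l) (fun a b c => ⟨(hF l a b c).2.1, (hF l a b c).2.2⟩) l h1 ?_
    intro j k _ _
    exact b1 j k
  have a4 : ∀ i k r, F i l k r = 0 := fun i k r => by
    have h1 := (hF l i k r).1
    have h2 := a3 i k r
    omega
  have a5 : ∀ i j r, F i j l r = 0 := fun i j r => by
    have h1 := (hF i l j r).2.1
    have h2 := a4 i j r
    omega
  have a6 : ∀ i j k, F i j k l = 0 := fun i j k => by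
    have h1 := (hF i j l k).2.2
    have h2 := a5 i j k
    omega
  intro i j k r
  by_cases hi : i = l
  · rw [hi]; exact a3 j k r
  · by_cases hj : j = l
    · rw [hj]; exact a4 i k r
    · by_cases hk : k = l
      · rw [hk]; exact a5 i j r
      · by_cases hr : r = l
        · rw [hr]; exact a6 i j k
        · exact h0 i j k r hi hj hk hr

theorem pf_CLP (hPBS : T_PBS) (hCL6 : Pool.Agent.H58.FL.T_CL6) (hSX3 : T_SX3) (hPX7 : T_PX7)
    (hPX8 : T_PX8) : T_CLP := by
  classical
  obtain ⟨palt, pcoc, -, -, -, ⟨g, hg⟩, -, -⟩ := hPBS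
  intro X S m hM hE
  by_cases hp : ∀ p : Fin 6 → X, (∀ i, p i ∈ S) → ¬ IsPy m p
  · by_cases hne : ∃ x ∈ S, ∃ y ∈ S, ∃ z ∈ S, ∃ w ∈ S, m x y z w ≠ 0
    · obtain ⟨c, hc⟩ := hCL6 X S m hM.alt hM.coc hM.exc (hSX3 X S m hM hp) hne
      refine ⟨fun x => g (c x), fun x hx y hy z hz w hw => ?_⟩
      rw [hc x hx y hy z hz w hw, hg]
    · push Not at hne
      refine ⟨fun _ => 0, fun x hx y hy z hz w hw => ?_⟩
      rw [hne x hx y hy z hz w hw]
      have h := (palt 0 0 0 0).1
      show (0 : ℤ) = pen 0 0 0 0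
      omega
  · push Not at hp
    obtain ⟨p₀, hp₀S, hp₀⟩ := hp
    -- labels
    have F1 : ∀ p : Fin 6 → X, (∀ i, p i ∈ S) → IsPy m p → ∀ x ∈ S, ∃ l : Fin 6, ∀ i j k,
        m x (p i) (p j) (p k) = pen l i j k := fun p hpS hp => hPX7 X S m hM hE.nx7 p hpS hp
    have F2 := hPX8 X S m hM hE
    -- replacement of one point of the pyramid
    have F3S : ∀ p : Fin 6 → X, (∀ i, p i ∈ S) → ∀ x ∈ S, ∀ l : Fin 6, ∀ i,
        Function.update p l x i ∈ S := by
      intro p hpS x hx l i
      by_cases hi : i = l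
      · rw [hi, Function.update_self]; exact hx
      · rw [Function.update_of_ne hi]; exact hpS i
    have F3 : ∀ p : Fin 6 → X, (∀ i, p i ∈ S) → IsPy m p → ∀ x ∈ S, ∀ l : Fin 6,
        (∀ i j k, m x (p i) (p j) (p k) = pen l i j k) → IsPy m (Function.update p l x) := by
      intro p hpS hp x hx l hl i j k r
      have hq := F3S p hpS x hx l
      have key := clp_alt4 (fun i j k r => m (Function.update p l x i) (Function.update p l x j)
        (Function.update p l x k) (Function.update p l x r) - pen i j k r) (by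
          intro a b c d
          have h1 := hM.alt _ (hq a) _ (hq b) _ (hq c) _ (hq d)
          have h2 := palt a b c d
          refine ⟨?_, ?_, ?_⟩
          · rw [h1.1, h2.1]; ring
          · rw [h1.2.1, h2.2.1]; ring
          · rw [h1.2.2.1, h2.2.2]; ring) l (by
          intro i j k r hi hj hk hr
          rw [Function.update_of_ne hi, Function.update_of_ne hj, Function.update_of_ne hk,
            Function.update_of_ne hr, hp i j k r, sub_self]) (by
          intro j k r hj hk hr
          rw [Function.update_self, Function.update_of_ne hj, Function.update_of_ne hk,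
            Function.update_of_ne hr, hl j k r, sub_self]) i j k r
      omega
    have F4 : ∀ p : Fin 6 → X, (∀ i, p i ∈ S) → IsPy m p → ∀ x ∈ S, ∀ l : Fin 6,
        (∀ i j k, m x (p i) (p j) (p k) = pen l i j k) → ∀ y ∈ S, ∀ n : Fin 6,
        (∀ i j k, m y (p i) (p j) (p k) = pen n i j k) → ∀ i j k,
        m y (Function.update p l x i) (Function.update p l x j) (Function.update p l x k) =
          pen n i j k := by
      intro p hpS hp x hx l hl y hy n hn i j k
      have hq := F3S p hpS x hx l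
      have key := clp_alt3 (fun i j k => m y (Function.update p l x i) (Function.update p l x j)
        (Function.update p l x k) - pen n i j k) (by
          intro a b c
          have h1 := hM.alt _ hy _ (hq a) _ (hq b) _ (hq c)
          have h2 := palt n a b c
          refine ⟨?_, ?_⟩
          · rw [h1.2.1, h2.2.1]; ring
          · rw [h1.2.2.1, h2.2.2]; ring) l (by
          intro i j k hi hj hk
          rw [Function.update_of_ne hi, Function.update_of_ne hj, Function.update_of_ne hk,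
            hn i j k, sub_self]) (by
          intro j k hj hk
          rw [Function.update_self, Function.update_of_ne hj, Function.update_of_ne hk]
          have h1 := (hM.alt _ hx _ hy _ (hpS j) _ (hpS k)).1
          have h2 := (palt l n j k).1
          have h3 := F2 p hpS hp x hx y hy l n hl hn j k
          rw [h1, h2, h3, sub_self]) i j k
      omega
    -- three points
    have F6 : ∀ p : Fin 6 → X, (∀ i, p i ∈ S) → IsPy m p → ∀ y ∈ S, ∀ z ∈ S, ∀ w ∈ S,
        ∀ k₁ k₂ k₃ : Fin 6, (∀ i j k, m y (p i) (p j) (p k) = pen k₁ i j k) →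
        (∀ i j k, m z (p i) (p j) (p k) = pen k₂ i j k) →
        (∀ i j k, m w (p i) (p j) (p k) = pen k₃ i j k) → ∀ b,
        m y z w (p b) = pen k₁ k₂ k₃ b := by
      intro p hpS hp y hy z hz w hw k₁ k₂ k₃ h1 h2 h3
      have c1 : ∀ d, d ≠ k₃ → m y z w (p d) = pen k₁ k₂ k₃ d := by
        intro d hd
        have e := F2 (Function.update p k₃ w) (F3S p hpS w hw k₃) (F3 p hpS hp w hw k₃ h3) y hy z hz
          k₁ k₂ (F4 p hpS hp w hw k₃ h3 y hy k₁ h1) (F4 p hpS hp w hw k₃ h3 z hz k₂ h2) k₃ d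
        rwa [Function.update_self, Function.update_of_ne hd] at e
      obtain ⟨d, hd⟩ : ∃ d : Fin 6, d ≠ k₃ := exists_ne k₃
      intro b
      have e1 := hM.coc _ hy _ hz _ hw _ (hpS b) _ (hpS d)
      have e2 := pcoc k₁ k₂ k₃ b d
      have e3 := F2 p hpS hp z hz w hw k₂ k₃ h2 h3 b d
      have e4 := F2 p hpS hp y hy w hw k₁ k₃ h1 h3 b d
      have e5 := F2 p hpS hp y hy z hz k₁ k₂ h1 h2 b d
      have e6 := c1 d hd
      omega
    have hch : ∀ x : X, ∃ l : Fin 6, x ∈ S → ∀ i j k, m x (p₀ i) (p₀ j) (p₀ k) = pen l i j k := by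
      intro x
      by_cases hx : x ∈ S
      · obtain ⟨l, hl⟩ := F1 p₀ hp₀S hp₀ x hx
        exact ⟨l, fun _ => hl⟩
      · exact ⟨0, fun h => absurd h hx⟩
    choose c hc using hch
    refine ⟨c, fun x hx y hy z hz w hw => ?_⟩
    have e := F6 (Function.update p₀ (c x) x) (F3S p₀ hp₀S x hx (c x))
      (F3 p₀ hp₀S hp₀ x hx (c x) (hc x hx)) y hy z hz w hw (c y) (c z) (c w)
      (F4 p₀ hp₀S hp₀ x hx (c x) (hc x hx) y hy (c y) (hc y hy))
      (F4 p₀ hp₀S hp₀ x hx (c x) (hc x hx) z hz (c z) (hc z hz))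
      (F4 p₀ hp₀S hp₀ x hx (c x) (hc x hx) w hw (c w) (hc w hw)) (c x)
    rw [Function.update_self] at e
    have m1 := (hM.alt _ hy _ hz _ hw _ hx).2.2.1
    have m2 := (hM.alt _ hy _ hz _ hx _ hw).2.1
    have m3 := (hM.alt _ hy _ hx _ hz _ hw).1
    have q1 := (palt (c y) (c z) (c w) (c x)).2.2
    have q2 := (palt (c y) (c z) (c x) (c w)).2.1
    have q3 := (palt (c y) (c x) (c z) (c w)).1
    omega

end Pool.Agent.H64.FN
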